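import Pool.Agent.H9x.RU.One

/-!
# The choice of the numbers
-/

set_option autoImplicit false

namespace Pool.Agent.H9x.RU

open Finset H568R2 Pool.Agent.H676 Pool.Agent.H620R2.Gauge Pool.Agent.NPC Pool.Agent.H591R3.PHG
  Pool.Agent.H622R2 Pool.Agent.H622R2.Exp

theorem LQ_le (u k : ℕ) : LQ u k ≤ 2 ^ (6 * u + 23 + 10 * k + 4 * u * k) := by
  unfold LQ
  have h1 : (2 ^ (2 * u) * 2 ^ (u + 11)) ^ 2 + 1 ≤ 2 ^ (6 * u + 23) := by
    have h2 : (2 ^ (2 * u) * 2 ^ (u + 11)) ^ 2 = 2 ^ (6 * u + 22) := by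
      rw [← pow_add, ← pow_mul]
      congr 1
      ring
    have h3 : 1 ≤ 2 ^ (6 * u + 22) := Nat.one_le_two_pow
    rw [h2, show 6 * u + 23 = 6 * u + 22 + 1 by ring, pow_succ 2 (6 * u + 22)]
    omega
  have h2 : (24 * 2 ^ (2 * u)) ^ (2 * k) ≤ 2 ^ (10 * k + 4 * u * k) := by
    have h3 : 24 * 2 ^ (2 * u) ≤ 2 ^ (2 * u + 5) := by
      rw [pow_add]
      norm_num
      omega
    refine (Nat.pow_le_pow_left h3 _).trans (le_of_eq ?_)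
    rw [← pow_mul]
    congr 1
    ring
  refine (Nat.mul_le_mul h1 h2).trans (le_of_eq ?_)
  rw [← pow_add]
  congr 1
  ring

theorem sizes (M : Alg) (k : ℕ) : ∃ cc : ℕ, 1 ≤ cc ∧ ∀ N₀ : ℕ,
    ∃ (n u T Pm Λ m₀ : ℕ) (as : List ℕ), N₀ ≤ n ∧ 5 ≤ n ∧ 8 * u ≤ n ∧ SZ n u k as ∧
      (∀ j : Fin (2 ^ (u + 11)), (enc as (8 * n) (bitsOf (u + 11) j)).length = m₀) ∧ n ≤ m₀ ∧
      (k + 1) * (2 * Pm + 1) + m₀ ≤ Λ ∧
      (∀ y : List Bool, y.length ≤ Λ → M.p.eval y.length ≤ T) ∧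
      (∀ (A : Oracle) (y : List Bool), y.length ≤ Λ → M.out (CC.cut T A) y = M.out A y) ∧
      Λ ≤ T ∧ 17 * T + 84 + k ≤ 2 ^ (2 * u) ∧
      ((Pm : ℝ) + 1) * (k * (2 ^ (Λ + 2) * (1 / 2) ^ (2 ^ (2 * u) + 1)) +
        3 * (1 / 2) ^ (2 ^ u)) + ((Pm : ℝ) + 1) * ((T + 1) * (214 * (LQ u k : ℝ) / 2 ^ n)) < 1 ∧
      2 ^ (m₀ / cc) ≤ Pm := by
  obtain ⟨qb, hqb⟩ := M.out_local
  set τ : Polynomial ℕ := qb + M.p + Polynomial.X with hτ
  have hτe : ∀ n, τ.eval n = qb.eval n + M.p.eval n + n := fun n => by rw [hτ]; simp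
  obtain ⟨d, _, hd⟩ := YAux.poly_bound τ
  set c' : ℕ := 16 * (d + 1) * (k + 1) with hc'
  have hc'1 : 16 ≤ c' := by
    rw [hc']
    nlinarith [Nat.zero_le d, Nat.zero_le k, Nat.zero_le (d * k)]
  set K : ℕ := 3 * (k + 1) + 160 * (k + 1) * c' + 2 with hK
  refine ⟨160 * (k + 1) * c', Nat.succ_le_of_lt (by positivity), fun N₀ => ?_⟩
  set ν : ℕ := K + N₀ + 100 + 10 * k with hν
  set n : ℕ := c' * ν with hn
  set u : ℕ := 2 * (d + 1) * ν with hu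
  have hνn : ν ≤ n := by
    rw [hn]
    exact Nat.le_mul_of_pos_left ν (by omega)
  have hn8 : n = 8 * u + 8 * u * k := by
    rw [hn, hc', hu]
    ring
  have h8u : 8 * u ≤ n := by omega
  have hn5 : 5 ≤ n := by omega
  have h2ν : 2 * ν ≤ u := by
    rw [hu]
    nlinarith [Nat.zero_le (d * ν)]
  obtain ⟨as, hsz⟩ := exists_SZ hn5 h8u k
  set m₀ : ℕ := 2 * as.sum + as.length + 2 * (8 * n) + 1 + (u + 11) with hm₀
  have hsum : as.sum ≤ (k + 1) * (64 * n) := by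
    have h1 := List.sum_le_card_nsmul as (64 * n) hsz.2.1
    rw [hsz.1, smul_eq_mul] at h1
    exact h1
  have hm1 : m₀ ≤ 160 * (k + 1) * n := by
    have h1 : as.length = k + 1 := hsz.1
    have h2 : (k + 1) * (64 * n) = 64 * (k * n) + 64 * n := by ring
    have h3 : 160 * (k + 1) * n = 160 * (k * n) + 160 * n := by ring
    omega
  have hm2 : m₀ / (160 * (k + 1) * c') ≤ ν := by
    refine Nat.div_le_of_le_mul (hm1.trans (le_of_eq ?_))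
    rw [hn]
    ring
  set Pm : ℕ := 2 ^ ν with hPm
  set Λ : ℕ := (k + 1) * (2 * Pm + 1) + m₀ with hΛ
  have hν2 : ν < 2 ^ ν := Nat.lt_two_pow_self
  have hΛ2 : Λ + 2 ≤ 2 ^ (2 * ν) := by
    have h1 : Λ + 2 ≤ K * 2 ^ ν := by
      have h2 : m₀ ≤ 160 * (k + 1) * c' * 2 ^ ν := by
        refine hm1.trans ?_
        rw [hn, ← mul_assoc]
        exact Nat.mul_le_mul_left _ hν2.le
      have h3 : (k + 1) * (2 * Pm + 1) ≤ 3 * (k + 1) * 2 ^ ν := by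
        rw [hPm]
        have h4 : 1 ≤ 2 ^ ν := Nat.one_le_two_pow
        calc (k + 1) * (2 * 2 ^ ν + 1) ≤ (k + 1) * (3 * 2 ^ ν) :=
              Nat.mul_le_mul_left _ (by omega)
          _ = 3 * (k + 1) * 2 ^ ν := by ring
      have h4 : 2 ≤ 2 * 2 ^ ν := by omega
      have h5 : K * 2 ^ ν = 3 * (k + 1) * 2 ^ ν + 160 * (k + 1) * c' * 2 ^ ν + 2 * 2 ^ ν := by
        rw [hK]; ring
      omega
    have h2 : K ≤ 2 ^ ν := by omega
    calc Λ + 2 ≤ K * 2 ^ ν := h1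
      _ ≤ 2 ^ ν * 2 ^ ν := Nat.mul_le_mul_right _ h2
      _ = 2 ^ (2 * ν) := by rw [← pow_add]; congr 1; ring
  set T : ℕ := τ.eval Λ with hT
  have hT2 : T ≤ 2 ^ (2 * ν * d) := by
    refine (hd Λ).trans ?_
    rw [pow_mul]
    exact Nat.pow_le_pow_left hΛ2 d
  have hΛT : Λ ≤ T := by rw [hT, hτe]; omega
  have h17 : 17 * T + 84 + k ≤ 2 ^ (2 * u) := by
    have h1 : 1 ≤ 2 ^ (2 * ν * d) := Nat.one_le_two_pow
    have h2 : 101 + k ≤ 2 ^ ν := by omega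
    have h3 : k ≤ k * 2 ^ (2 * ν * d) := Nat.le_mul_of_pos_right k h1
    calc 17 * T + 84 + k ≤ 101 * 2 ^ (2 * ν * d) + k * 2 ^ (2 * ν * d) := by omega
      _ = (101 + k) * 2 ^ (2 * ν * d) := by ring
      _ ≤ 2 ^ ν * 2 ^ (2 * ν * d) := Nat.mul_le_mul_right _ h2
      _ = 2 ^ (ν + 2 * ν * d) := by rw [← pow_add]
      _ ≤ 2 ^ (2 * u) := by
        refine Nat.pow_le_pow_right (by norm_num) ?_
        rw [hu]
        nlinarith [Nat.zero_le (d * ν)]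
  refine ⟨n, u, T, Pm, Λ, m₀, as, by omega, hn5, h8u, hsz, fun j => ?_, by omega, le_rfl,
    fun y hy => ?_, fun A y hy => ?_, hΛT, h17, ?_, ?_⟩
  · rw [enc_len, length_bitsOf]
  · refine (eval_mono M.p hy).trans ?_
    rw [hT, hτe]
    omega
  · obtain ⟨Q, _, h6, h7⟩ := hqb A y
    refine h7 _ fun q hq => ?_
    unfold CC.cut
    rw [if_pos]
    have h8 := h6 q hq
    have h9 := eval_mono qb hy
    rw [hT, hτe]
    omega
  · have hP1 : Pm + 1 ≤ 2 ^ (ν + 1) := by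
      rw [hPm, pow_succ]
      have : 1 ≤ 2 ^ ν := Nat.one_le_two_pow
      omega
    have hA : (Pm + 1) * (k * 2 ^ (Λ + 2)) * 4 ≤ 2 ^ (2 ^ (2 * u) + 1) := by
      have h1 : k ≤ 2 ^ k := Nat.lt_two_pow_self.le
      calc (Pm + 1) * (k * 2 ^ (Λ + 2)) * 4 ≤ 2 ^ (ν + 1) * (2 ^ k * 2 ^ (Λ + 2)) * 2 ^ 2 :=
            Nat.mul_le_mul (Nat.mul_le_mul hP1 (Nat.mul_le_mul_right _ h1)) (by norm_num)
        _ = 2 ^ (ν + 1 + (k + (Λ + 2)) + 2) := by rw [← pow_add, ← pow_add, ← pow_add]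
        _ ≤ 2 ^ (2 ^ (2 * u) + 1) := by
          refine Nat.pow_le_pow_right (by norm_num) ?_
          have : ν ≤ Λ := by omega
          omega
    have hB : (Pm + 1) * 3 * 4 ≤ 2 ^ 2 ^ u := by
      have h1 : u < 2 ^ u := Nat.lt_two_pow_self
      calc (Pm + 1) * 3 * 4 ≤ 2 ^ (ν + 1) * 2 ^ 2 * 2 ^ 2 :=
            Nat.mul_le_mul (Nat.mul_le_mul hP1 (by norm_num)) (by norm_num)
        _ = 2 ^ (ν + 1 + 2 + 2) := by rw [← pow_add, ← pow_add]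
        _ ≤ 2 ^ 2 ^ u := Nat.pow_le_pow_right (by norm_num) (by omega)
    have hC : (Pm + 1) * ((T + 1) * (214 * LQ u k)) * 4 ≤ 2 ^ n := by
      have h1 : T + 1 ≤ 2 ^ (2 * ν * d + 1) := by
        rw [pow_succ]
        have : 1 ≤ 2 ^ (2 * ν * d) := Nat.one_le_two_pow
        omega
      calc (Pm + 1) * ((T + 1) * (214 * LQ u k)) * 4 ≤ 2 ^ (ν + 1) * (2 ^ (2 * ν * d + 1) *
            (2 ^ 8 * 2 ^ (6 * u + 23 + 10 * k + 4 * u * k))) * 2 ^ 2 :=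
            Nat.mul_le_mul (Nat.mul_le_mul hP1 (Nat.mul_le_mul h1
              (Nat.mul_le_mul (by norm_num) (LQ_le u k)))) (by norm_num)
        _ = 2 ^ (ν + 1 + (2 * ν * d + 1 + (8 + (6 * u + 23 + 10 * k + 4 * u * k))) + 2) := by
            rw [← pow_add, ← pow_add, ← pow_add, ← pow_add]
        _ ≤ 2 ^ n := by
          refine Nat.pow_le_pow_right (by norm_num) ?_
          rw [hn8]
          have h2 : u = 2 * ν * d + 2 * ν := by rw [hu]; ring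
          have h3 : 4 * u * k ≤ 8 * u * k := by nlinarith [Nat.zero_le (u * k)]
          have h4 : 100 + 10 * k ≤ ν := by omega
          omega
    have hAR : ((Pm : ℝ) + 1) * (k * (2 ^ (Λ + 2) * (1 / 2) ^ (2 ^ (2 * u) + 1))) ≤ 1 / 4 := by
      have h1 : ((Pm : ℝ) + 1) * (k * 2 ^ (Λ + 2)) * 4 ≤ 2 ^ (2 ^ (2 * u) + 1) := by
        exact_mod_cast hA
      have h2 : (0 : ℝ) < 2 ^ (2 ^ (2 * u) + 1) := by positivity
      rw [one_div_pow]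
      have h3 : ((Pm : ℝ) + 1) * (k * (2 ^ (Λ + 2) * (1 / 2 ^ (2 ^ (2 * u) + 1)))) =
          ((Pm : ℝ) + 1) * (k * 2 ^ (Λ + 2)) / 2 ^ (2 ^ (2 * u) + 1) := by ring
      rw [h3, div_le_iff₀ h2]
      linarith
    have hBR : ((Pm : ℝ) + 1) * (3 * (1 / 2) ^ (2 ^ u)) ≤ 1 / 4 := by
      have h1 : ((Pm : ℝ) + 1) * 3 * 4 ≤ 2 ^ (2 ^ u) := by exact_mod_cast hB
      have h2 : (0 : ℝ) < 2 ^ (2 ^ u) := by positivity
      rw [one_div_pow]
      have h3 : ((Pm : ℝ) + 1) * (3 * (1 / 2 ^ (2 ^ u))) = ((Pm : ℝ) + 1) * 3 / 2 ^ (2 ^ u) := by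
        ring
      rw [h3, div_le_iff₀ h2]
      linarith
    have hCR : ((Pm : ℝ) + 1) * ((T + 1) * (214 * (LQ u k : ℝ) / 2 ^ n)) ≤ 1 / 4 := by
      have h1 : ((Pm : ℝ) + 1) * ((T + 1) * (214 * (LQ u k : ℝ))) * 4 ≤ 2 ^ n := by
        exact_mod_cast hC
      have h2 : (0 : ℝ) < 2 ^ n := by positivity
      have h3 : ((Pm : ℝ) + 1) * ((T + 1) * (214 * (LQ u k : ℝ) / 2 ^ n)) =
          ((Pm : ℝ) + 1) * ((T + 1) * (214 * (LQ u k : ℝ))) / 2 ^ n := by ring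
      rw [h3, div_le_iff₀ h2]
      linarith
    rw [mul_add]
    linarith
  · exact Nat.pow_le_pow_right (by norm_num) hm2

end Pool.Agent.H9x.RU
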