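import Pool.Agent.H9x.RU.Nums
import Pool.Agent.H9x.RT.Up
import Pool.Agent.H9x.V1.Low
import Pool.Agent.H591R3.PHG.LangSig

/-!
# The world in which `BQP = PSPACE` and the polynomial hierarchy is infinite
-/

set_option autoImplicit false

namespace Pool.Agent.H9x.RU

open Pool.Agent.NPC Pool.Agent.H622R2 Pool.Agent.H620R2.Gauge Pool.Agent.H622R2.Exp
  Pool.Agent.TH678.ETH Pool.Agent.TH678.SETH Pool.Agent.TH678.RS Pool.Agent.H9x.Q Filter
  Pool.Agent.H591R3.PHG

open Pool.Agent.H9x.V1 (Ac ac_congr poly_rep poly_cS finite_ext)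

open Pool.Agent.H9x.RT (ll lev HZ HZ_iff FoC FoC_enc Yes No FoA isBQP_of_fo cpy ll_eval
  exists_dist)


variable {S : ℕ → Polynomial ℕ} {g : ℕ → SAlg × Polynomial ℕ}

/-- **Truth of the codes.** -/
theorem code_true (hg : Function.Surjective g) (hc : Kr g S) (A : Oracle)
    {L : Set (List Bool)} (hL : IsPSPACE A L) :
    ∃ e : ℕ, ∀ x : List Bool, Ac g S e x A ↔ x ∈ L := by
  obtain ⟨M, p, hM⟩ := hL
  obtain ⟨e, he⟩ := hg (M, p)
  refine ⟨e, fun x => ?_⟩
  have hloc := hc.loc e
  unfold Ac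
  rw [he] at hloc ⊢
  obtain ⟨hM1, s, z, hs, hz, hLz⟩ := hM x
  have hcong : ∀ s, M.Reach (CC.cut ((S e).eval x.length) A) x s ↔ M.Reach A x s := by
    refine CC.reach_congr (fun s => s.length ≤ p.eval x.length) hM1 ?_
    intro s q h1 h2
    have h3 := hloc x s h1
    rw [h2, List.length_cons] at h3
    unfold CC.cut
    rw [if_pos (by omega)]
  constructor
  · rintro ⟨t, ht, ht2⟩
    have hst := CC.reach_unique hs ((hcong t).1 ht) ⟨_, hz⟩ ⟨_, ht2⟩
    rw [hst, ht2] at hz
    simp only [List.cons.injEq, true_and] at hz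
    exact hLz.2 hz.symm
  · intro hx
    refine ⟨s, (hcong s).2 hs, ?_⟩
    rw [hz, hLz.1 hx]

/-- the prefix of the strings about the zero string -/
theorem base_HZ (D : Dt) {l k : ℕ} (hl : 1 ≤ l) (u : Fin (k * l) → Bool) :
    orc S g D ((false :: false :: (List.replicate l true ++ [false])) ++ List.ofFn u) = true ↔
      ∃ j, cpy u j = fun _ => false := by
  have h1 : (false :: false :: (List.replicate l true ++ [false])) ++ List.ofFn u =
      false :: false :: (List.replicate l true ++ false :: List.ofFn u) := by simp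
  rw [h1, orc_off D (fun p hp => by simp [cJ] at hp)]
  show @decide (HZ _) (Classical.propDecidable _) = true ↔ _
  exact (@decide_eq_true_iff _ (Classical.propDecidable _)).trans (HZ_iff hl u)

/-- **Polynomial space in quantum polynomial time.** -/
theorem bqp_of_pspace (hg : Function.Surjective g) (hc : Kr g S) {D : Dt} (hD : Good S D.bl)
    {L : Set (List Bool)} (hL : IsPSPACE (orc S g D) L) : IsBQP (orc S g D) L := by
  obtain ⟨e, he⟩ := code_true hg hc _ hL
  have hlen : UPoly (fun u : List Bool => u.length) := UPoly.length Poly.id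
  have hSe : UPoly (fun u : List Bool => (S e).eval u.length) := hlen.eval (S e)
  set l : Polynomial ℕ := Polynomial.C 8 * S e + Polynomial.C 40 with hl
  have hll : ∀ n, l.eval n = ll ((S e).eval n) := fun n => ll_eval _ _
  refine isBQP_of_fo (fun u => false :: true :: cS e ((S e).eval u.length) [])
    (fun u => false :: false :: (List.replicate (l.eval u.length) true ++ [false])) l
    ?_ ?_ (fun u v huv => by simp only [huv]) (fun u v huv => by simp only [huv])
    (fun n => by rw [hll]; unfold ll; omega) (fun x k u => ?_) (fun x => ?_)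
  · exact Poly.cons (NPC.Poly.const _) (Poly.cons (NPC.Poly.const _)
      (poly_cS e hSe (NPC.Poly.const [])))
  · exact Poly.cons (NPC.Poly.const _) (Poly.cons (NPC.Poly.const _)
      (Poly.append (poly_rep (hlen.eval l)) (NPC.Poly.const [false])))
  · exact base_HZ D (by rw [hll]; unfold ll; omega) u
  · -- the forrelation of the block
    have hval : ∀ (c : Bool) (v : Fin (l.eval x.length) → Bool), orc S g D
        ((false :: true :: cS e ((S e).eval x.length) []) ++ x ++ (c :: List.ofFn v)) =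
        D.bl (e, x) (@decide (Ac g S e x (orc S g D)) (Classical.propDecidable _))
          (c :: List.ofFn v) := by
      intro c v
      have hw : (c :: List.ofFn v).length = ll ((S e).eval x.length) + 1 := by
        rw [List.length_cons, List.length_ofFn, hll]
      have h1 : (false :: true :: cS e ((S e).eval x.length) []) ++ x ++
          (c :: List.ofFn v) = cJ (⟨e, x, c :: List.ofFn v, hw⟩ : Jx S) := by
        show _ = false :: true :: cS e ((S e).eval x.length) (x ++ (c :: List.ofFn v))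
        simp [cS, pr]
      rw [h1, orc_on]
    have hfo : FoA (orc S g D) ((false :: true :: cS e ((S e).eval x.length) []) ++ x)
        (l.eval x.length) = FoC (D.bl (e, x) (@decide (Ac g S e x (orc S g D))
          (Classical.propDecidable _))) (l.eval x.length) := by
      unfold FoA FoC
      simp only [hval]
    have hb := hD (e, x)
    constructor
    · intro hx
      rw [hfo]
      have h2 : @decide (Ac g S e x (orc S g D)) (Classical.propDecidable _) = true := by
        exact (@decide_eq_true_iff _ (Classical.propDecidable _)).2 ((he x).2 hx)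
      rw [h2, hll]
      exact hb.1
    · intro hx
      rw [hfo]
      have h2 : @decide (Ac g S e x (orc S g D)) (Classical.propDecidable _) = false := by
        exact (@decide_eq_false_iff_not _ (Classical.propDecidable _)).2
          fun h3 => hx ((he x).1 h3)
      rw [h2, hll]
      exact hb.2

theorem isFP_Ver' (k : ℕ) (e : Bool) (A : Oracle) : IsFP A (LangSig.Ver k e (fo A)) := by
  have h1 : Poly (fun p : List Bool × List Bool => p.2.all (fun b => !b)) :=
    Poly.all (p := fun _ b => !b) (Poly.snd Poly.id) (Poly.not (Poly.snd Poly.id))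
  have h2 : Poly (fun p : List Bool × List Bool => [decide (p.2.all (fun b => !b) = e)]) :=
    Poly.cons (Poly.decide_eq h1 (NPC.Poly.const e)) (NPC.Poly.const [])
  have h3 : Poly (fun y : List Bool => (LangSig.Qs k y).map (fun q => true :: q)) :=
    NPC.Poly.map (F := fun _ q => true :: q) (LangSig.poly_Qs k)
      (Poly.cons (NPC.Poly.const true) (Poly.snd Poly.id))
  have h4 := IsFP.tt (A := A) (H := fun p => [decide (p.2.all (fun b => !b) = e)]) h3 h2
  have h5 : (fun x => (fun p : List Bool × List Bool => [decide (p.2.all (fun b => !b) = e)])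
      (x, ((LangSig.Qs k x).map (fun q => true :: q)).map A)) = LangSig.Ver k e (fo A) := by
    funext y
    show [decide (_ = e)] = [decide (_ = e)]
    rw [List.map_map]
    rfl
  rw [h5] at h4
  exact h4

theorem lang_sig' (A : Oracle) (k : ℕ) : IsSig A (k + 1) (lang k (fo A)) := by
  refine ⟨LangSig.Ver (k + 1) (!(bot true (k + 1))) (fo A), Polynomial.X,
    isFP_Ver' _ _ _, fun x => ?_⟩
  rw [LangSig.quant_iff (fo A) (k + 1) _ _ (k + 1) 0 true x x x (by omega) rfl (by simp)
    (by rw [Bool.not_not])]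
  rfl

/-- the data of one level -/
abbrev Lv : Type := (ℕ × List Bool → Bool → List Bool → Bool) × (List Bool → Bool)

/-- the data given by the levels -/
def dat (S : ℕ → Polynomial ℕ) (κ : ℕ → Lv) : Dt :=
  ⟨fun c => (κ (lev S c)).1 c, fun u => (κ u.length).2 u⟩

/-- the data of one level are good -/
def GLv (S : ℕ → Polynomial ℕ) (s : ℕ) (v : Lv) : Prop :=
  ∀ c, lev S c = s → Yes s (v.1 c true) ∧ No s (v.1 c false)

theorem good_dat {κ : ℕ → Lv} (h : ∀ s, GLv S s (κ s)) : Good S (dat S κ).bl :=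
  fun c => h (lev S c) c rfl

/-- the machine is wrong with all the small paddings -/
def Req (cc : Alg → ℕ → ℕ) (A : Oracle) (r : Alg × ℕ × ℕ) : Prop :=
  ∃ m₀ : ℕ, r.2.2 ≤ m₀ ∧ ∀ P ≤ 2 ^ (m₀ / cc r.1 r.2.1), ∃ x : List Bool, x.length = m₀ ∧
    ¬ (x ∈ lang r.2.1 (fo A) ↔ Quant P (fun y => (r.1.out A y).getD []) r.2.1 true
      (pairBits (List.replicate P true) x))

theorem rt_congr {X : Type} {k P T Λ w : ℕ} {M : Alg} {as : List ℕ} (hk : as.length = k + 1)
    (zz : X → List Bool)
    (hΛ : ∀ j, (pairBits (List.replicate P true) (enc as w (zz j))).length + k * (2 * P + 1) ≤ Λ)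
    (hcut : ∀ (A : Oracle) (y : List Bool), y.length ≤ Λ → M.out (CC.cut T A) y = M.out A y)
    {m₀ : ℕ} (hm : ∀ j, (enc as w (zz j)).length = m₀) {A A' : Oracle}
    (hA : ∀ q : List Bool, q.length ≤ T + m₀ + as.sum + w + 1 → A q = A' q) :
    Rt k P M (fun j => enc as w (zz j)) A ↔ Rt k P M (fun j => enc as w (zz j)) A' := by
  have h1 := rt_iff (I := Fin 0) (T := T) (Λ := Λ) (M := M) hk zz hΛ hcut (fun _ => A)
    (fun _ => false)
  have h2 := rt_iff (I := Fin 0) (T := T) (Λ := Λ) (M := M) hk zz hΛ hcut (fun _ => A')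
    (fun _ => false)
  have h3 : lf M T (fun _ : Fin 0 → Bool => A) = lf M T (fun _ : Fin 0 → Bool => A') := by
    funext y z
    unfold lf
    simp only
    rw [Pool.Agent.H9x.RT.cut_congr (m := T) (A := A) (A' := A') fun z hz => hA z (by omega)]
  have h4 : leaves (fun j => enc as w (zz j)) as w (fo A) =
      leaves (fun j => enc as w (zz j)) as w (fo A') := by
    funext a
    unfold leaves fo
    refine hA _ ?_
    have := leaf_len (fun j => enc as w (zz j)) m₀ hm as w a
    rw [List.length_cons]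
    omega
  rw [h1, h2, h3, h4]

/-- **One stage.** -/
theorem stage (cc : Alg → ℕ → ℕ) (hcc : ∀ (M : Alg) (k N₀ : ℕ),
    ∃ (n u T Pm Λ m₀ : ℕ) (as : List ℕ), N₀ ≤ n ∧ 5 ≤ n ∧ 8 * u ≤ n ∧ SZ n u k as ∧
      (∀ j : Fin (2 ^ (u + 11)), (enc as (8 * n) (bitsOf (u + 11) j)).length = m₀) ∧ n ≤ m₀ ∧
      (k + 1) * (2 * Pm + 1) + m₀ ≤ Λ ∧
      (∀ y : List Bool, y.length ≤ Λ → M.p.eval y.length ≤ T) ∧
      (∀ (A : Oracle) (y : List Bool), y.length ≤ Λ → M.out (CC.cut T A) y = M.out A y) ∧
      Λ ≤ T ∧ 17 * T + 84 + k ≤ 2 ^ (2 * u) ∧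
      ((Pm : ℝ) + 1) * (k * (2 ^ (Λ + 2) * (1 / 2) ^ (2 ^ (2 * u) + 1)) +
        3 * (1 / 2) ^ (2 ^ u)) + ((Pm : ℝ) + 1) * ((T + 1) * (214 * (LQ u k : ℝ) / 2 ^ n)) < 1 ∧
      2 ^ (m₀ / cc M k) ≤ Pm) (hc : Kr g S) (r : Alg × ℕ × ℕ) (N₀ : ℕ) (κ : ℕ → Lv)
    (hκ : ∀ s, GLv S s (κ s)) :
    ∃ (κ' : ℕ → Lv) (N' : ℕ), (∀ s, GLv S s (κ' s)) ∧ (∀ s < N₀, κ' s = κ s) ∧
      ∀ κ'' : ℕ → Lv, (∀ s, GLv S s (κ'' s)) → (∀ s < N', κ'' s = κ' s) →
        Req cc (orc S g (dat S κ'')) r := by
  obtain ⟨M, k, i⟩ := r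
  obtain ⟨n, u, T, Pm, Λ, m₀, as, h1, h2, h3, hsz, hm, hnm, hΛ, hp, hcut, hΛT, h17, hnum, hPm⟩ :=
    hcc M k (N₀ + i)
  obtain ⟨D', hD', hb, hf, hne⟩ := one_step (Pm := Pm) hc M h2 h3 hsz hm hnm hΛ hp hcut hΛT h17
    hnum (dat S κ) (good_dat hκ)
  set κ' : ℕ → Lv := fun s => if s < N₀ then κ s else (D'.bl, D'.fr) with hκ'
  have hdat : dat S κ' = D' := by
    have e1 : (dat S κ').bl = D'.bl := by
      funext c
      show (κ' (lev S c)).1 c = _
      rw [hκ']
      simp only
      split_ifs with hlt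
      · rw [hb c (by omega)]
        rfl
      · rfl
    have e2 : (dat S κ').fr = D'.fr := by
      funext v
      show (κ' v.length).2 v = _
      rw [hκ']
      simp only
      split_ifs with hlt
      · rw [hf v (by omega)]
        rfl
      · rfl
    cases D'
    simp only at e1 e2
    rw [← e1, ← e2]
  refine ⟨κ', T + m₀ + as.sum + 8 * n + 2, fun s => ?_,
    fun s hs => by rw [hκ']; exact if_pos hs, fun κ'' _ hag => ⟨m₀, by show i ≤ m₀; omega,
      fun P hP => ?_⟩⟩
  · rw [hκ']
    simp only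
    split_ifs with hlt
    · exact hκ s
    · intro c hcs
      have := hD' c
      rw [hcs] at this
      exact this
  · have hloc : ∀ q : List Bool, q.length ≤ T + m₀ + as.sum + 8 * n + 1 →
        orc S g (dat S κ'') q = orc S g D' q := by
      intro q hq
      refine orc_loc (n := T + m₀ + as.sum + 8 * n + 2) (fun c hc' => ?_) (fun v hv => ?_) _ q rfl
        (by omega)
      · show (κ'' (lev S c)).1 c = _
        rw [hag _ hc', ← hdat]
        rfl
      · show (κ'' v.length).2 v = _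
        rw [hag _ hv, ← hdat]
        rfl
    have hP2 : P ≤ Pm := le_trans hP hPm
    have hΛP : ∀ j : Fin (2 ^ (u + 11)), (pairBits (List.replicate P true) (enc as (8 * n)
        (bitsOf (u + 11) j))).length + k * (2 * P + 1) ≤ Λ := by
      intro j
      rw [length_pairBits, List.length_replicate, hm j]
      have h1 : (k + 1) * (2 * P + 1) ≤ (k + 1) * (2 * Pm + 1) :=
        Nat.mul_le_mul_left _ (by omega)
      have h2 : (k + 1) * (2 * P + 1) = k * (2 * P + 1) + (2 * P + 1) := by ring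
      omega
    have h4 := rt_congr (T := T) (Λ := Λ) (M := M) (w := 8 * n) hsz.1
      (fun j : Fin (2 ^ (u + 11)) => bitsOf (u + 11) j) hΛP hcut hm hloc
    have h5 := hne P hP2
    rw [← h4] at h5
    unfold Rt at h5
    rw [not_forall] at h5
    obtain ⟨j, hj⟩ := h5
    exact ⟨_, hm j, hj⟩

/-- good data exist -/
theorem exists_good (S : ℕ → Polynomial ℕ) : ∃ κ : ℕ → Lv, ∀ s, GLv S s (κ s) := by
  choose P Q _ hP1 hPG _ hQ1 hQG _ using fun s : ℕ =>
    exists_dist (l := ll s) (by unfold ll; omega)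
  have h1 : ∀ s, ∃ a, P s a ≠ 0 := by
    intro s
    by_contra hcon
    push Not at hcon
    have := hP1 s
    simp [hcon] at this
  have h2 : ∀ s, ∃ a, Q s a ≠ 0 := by
    intro s
    by_contra hcon
    push Not at hcon
    have := hQ1 s
    simp [hcon] at this
  choose u hu using h1
  choose v hv using h2
  have hy : ∀ s, Yes s (RT.enc (ll s) (u s)) := fun s => by
    unfold Yes
    rw [FoC_enc]
    exact hPG s _ (hu s)
  have hn : ∀ s, No s (RT.enc (ll s) (v s)) := fun s => by
    unfold No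
    rw [FoC_enc]
    exact hQG s _ (hv s)
  exact ⟨fun s => (fun _ t => if t then RT.enc (ll s) (u s) else RT.enc (ll s) (v s), fun _ => false),
    fun s c _ => ⟨hy s, hn s⟩⟩

/-- **The world in which `BQP = PSPACE` and the polynomial hierarchy is infinite.** -/
theorem world :
    ∃ A : Oracle, (∀ L, IsPSPACE A L → IsBQP A L) ∧
      ∀ k : ℕ, ∃ L, IsSig A (k + 1) L ∧ ∀ (V : List Bool → List Bool) (h : ℕ → ℕ), IsFP A V →
        (∀ c : ℕ, ∀ᶠ n : ℕ in atTop, c * h n ≤ n) → ∃ x, ¬ (x ∈ L ↔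
          Quant (2 ^ h x.length) V k true
            (pairBits (List.replicate (2 ^ h x.length) true) x)) := by
  obtain ⟨g, hg⟩ := CC.exists_enum
  have hne : Nonempty (Alg × ℕ × ℕ) := ⟨⟨⟨fun _ => [], CC.const_polyTime _, 0⟩, 0, 0⟩⟩
  obtain ⟨en, hen⟩ := exists_surjective_nat (Alg × ℕ × ℕ)
  obtain ⟨S, hc⟩ := exists_kr g
  choose cc hcc1 hcc using sizes
  obtain ⟨κ, hκ, hP⟩ := finite_ext (β := Lv) (GLv S)
    (fun j κ => Req cc (orc S g (dat S κ)) (en j))
    (exists_good S) (fun j N₀ κ hκ => stage cc hcc hc (en j) N₀ κ hκ)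
  refine ⟨orc S g (dat S κ), fun L hL => bqp_of_pspace hg hc (good_dat hκ) hL, fun k =>
    ⟨lang k (fo (orc S g (dat S κ))), lang_sig' _ k, fun V h hV hh => ?_⟩⟩
  obtain ⟨M, hM⟩ := hV
  have h1 := hh (cc M k)
  rw [eventually_atTop] at h1
  obtain ⟨i, hi⟩ := h1
  obtain ⟨j, hj⟩ := hen (M, k, i)
  obtain ⟨m₀, h2, h3⟩ := hP j
  rw [hj] at h2 h3
  have h4 : h m₀ ≤ m₀ / cc M k := by
    rw [Nat.le_div_iff_mul_le (hcc1 M k), mul_comm]
    exact hi m₀ h2
  obtain ⟨x, hx, hx2⟩ := h3 (2 ^ h m₀) (Nat.pow_le_pow_right (by norm_num) h4)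
  refine ⟨x, ?_⟩
  rw [hx]
  have h5 : (fun y => ((M.out (orc S g (dat S κ))) y).getD []) = V := by
    funext y
    rw [hM y]
    rfl
  rw [← h5]
  exact hx2

end Pool.Agent.H9x.RU
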