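import Pool.Agent.H9x.RU.Or
import Pool.Agent.H591R3.PHG.Main

/-!
# The second level of conjunctions of alternating quantifiers in front of algorithms
-/

set_option autoImplicit false
set_option linter.unusedSectionVars false

namespace Pool.Agent.H9x.RU

open Finset H568R2 Pool.Agent.H676 Pool.Agent.H620R2.Gauge Pool.Agent.NPC Pool.Agent.H591R3.PHG

open Pool.Agent.H591R3.PHG.FinalAux (DTv)

open Pool.Agent.H9x.RT (lv lv_switch)

section

variable {I : Type} [Fintype I] [DecidableEq I]

/-- **Algorithms are shallow decision trees.** -/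
theorem dtr_run {T : ℕ} {G : (I → Bool) → Oracle} (hG : Smp T G) (M : Alg) (y : List Bool) :
    ∀ (n : ℕ) (acc : List Bool),
      DTr n (fun z : I → Bool => decide (M.run (CC.cut T (G z)) y n acc = some [true])) := by
  intro n
  induction n with
  | zero =>
    intro acc
    exact ⟨false, fun a => by simp [Alg.run]⟩
  | succ n ih =>
    intro acc
    rcases hq : M.D (pairBits y acc) with _ | ⟨c, q⟩
    · exact DTr.const ⟨false, fun a => by simp [Alg.run, hq]⟩
    · cases c with
      | true => exact DTr.const ⟨decide (q = [true]), fun a => by simp [Alg.run, hq]⟩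
      | false =>
        have hconst : ∀ v : Bool, (∀ z, CC.cut T (G z) q = v) → DTr (n + 1) (fun z : I → Bool =>
            decide (M.run (CC.cut T (G z)) y (n + 1) acc = some [true])) := by
          intro v hv
          have h2 : (fun z : I → Bool => decide (M.run (CC.cut T (G z)) y (n + 1) acc =
              some [true])) = fun z => decide (M.run (CC.cut T (G z)) y n (acc ++ [v]) =
              some [true]) := by
            funext z
            simp only [Alg.run, hq, hv z]
          rw [h2]
          exact (ih (acc ++ [v])).succ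
        by_cases hN : q.length ≤ T
        · have hcut : ∀ z, CC.cut T (G z) q = G z q := fun z => by
            unfold CC.cut
            rw [if_pos hN]
          rcases hG q hN with ⟨v, hv⟩ | ⟨i, hi⟩
          · exact hconst v fun z => by rw [hcut, hv]
          · refine Or.inr ⟨i, fun b => ?_⟩
            have h1 := DTr_update (ih (acc ++ [b])) i b
            have h2 : (fun z : I → Bool => decide (M.run (CC.cut T (G (Function.update z i b))) y
                (n + 1) acc = some [true])) = fun z => decide (M.run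
                (CC.cut T (G (Function.update z i b))) y n (acc ++ [b]) = some [true]) := by
              funext z
              have h3 : CC.cut T (G (Function.update z i b)) q = b := by
                rw [hcut, hi, Function.update_self]
              simp only [Alg.run, hq, h3]
            rw [h2]
            exact h1
        · refine hconst false fun z => ?_
          unfold CC.cut
          rw [if_neg hN]

/-- the leaf functions -/
def lf (M : Alg) (T : ℕ) (G : (I → Bool) → Oracle) (y : List Bool) (z : I → Bool) : Bool :=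
  decide (M.out (CC.cut T (G z)) y = some [true])

theorem dtr_lf {T t : ℕ} {G : (I → Bool) → Oracle} (hG : Smp T G) (M : Alg) (y : List Bool)
    (ht : M.p.eval y.length ≤ t) : DTr t (lf M T G y) :=
  (dtr_run hG M y _ []).mono ht

/-- quantifiers in front of an algorithm -/
theorem quant_QF {m : ℕ} {F : List Bool → (I → Bool) → Bool} {z : I → Bool}
    {V : List Bool → List Bool} (ℓ : ℕ)
    (hV : ∀ y : List Bool, y.length ≤ ℓ → (V y = [true] ↔ F y z = true)) :
    ∀ (k : ℕ) (b : Bool) (y : List Bool), y.length + k * (2 * m + 1) ≤ ℓ →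
      (Quant m V k b y ↔ QF m F k b y z = true) := by
  intro k
  induction k with
  | zero =>
    intro b y hy
    simp only [Quant, QF]
    exact hV y (by omega)
  | succ k ih =>
    intro b y hy
    have hlen : ∀ w : List Bool, w.length ≤ m → (pairBits w y).length + k * (2 * m + 1) ≤ ℓ := by
      intro w hw
      rw [length_pairBits]
      have : (k + 1) * (2 * m + 1) = k * (2 * m + 1) + (2 * m + 1) := by ring
      omega
    cases b with
    | true =>
      simp only [Quant, QF, decide_eq_true_eq]
      exact exists_congr fun w => and_congr_right fun hw => ih false _ (hlen w hw)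
    | false =>
      simp only [Quant, QF, decide_eq_true_eq]
      exact forall_congr' fun w => forall_congr' fun hw => ih true _ (hlen w hw)

theorem dtr_of_dtv {k : ℕ} : ∀ {f : (I → Bool) → Bool}, DTv k f → DTr k f := by
  induction k with
  | zero => intro f h; exact h
  | succ k ih =>
    rintro f (h | ⟨i, h⟩)
    · exact Or.inl h
    · exact Or.inr ⟨i, fun b => ih (h b)⟩

open Classical in
/-- **The second level of a conjunction of alternating quantifiers.** -/
theorem lv_all {X : Type} [Fintype X] [DecidableEq X] {t : ℕ} (ht : 1 ≤ t) (m k ℓ : ℕ)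
    (F : List Bool → (I → Bool) → Bool)
    (hF : ∀ y : List Bool, y.length ≤ ℓ + k * (2 * m + 1) → DTr t (F y)) (y : X → List Bool)
    (hy : ∀ j, (y j).length ≤ ℓ) (b : Bool) (τ : X → Bool)
    (hβ : k * 2 ^ (ℓ + k * (2 * m + 1) + 2) * Fintype.card I ^ 2 ≤ 2 ^ (t + 1))
    {f : (I → Bool) → Bool} (hf : ∀ z, f z = true ↔ ∀ j, QF m F k b (y j) z ≠ τ j)
    (ρ₀ : Restr I) :
    lv 2 (br (rs f ρ₀)) 0 ≤
      ((((t * Fintype.card X : ℕ) : ℝ)) ^ 2 + 1) * (24 * (t : ℝ)) ^ (2 * k) := by
  have htR : (1 : ℝ) ≤ t := by exact_mod_cast ht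
  set q : ℝ := 1 / (24 * t) with hq
  have h0 : 0 < q := by positivity
  have h1 : q ≤ 1 / 3 := by
    rw [hq]
    refine one_div_le_one_div_of_le (by norm_num) (by linarith)
  have hhalf : 12 * (t : ℝ) * q = 1 / 2 := by
    rw [hq]
    field_simp
    norm_num
  set F' : List Bool → (I → Bool) → Bool := fun y z => F y (H568R2.ov ρ₀ z) with hF'
  have hF1 : ∀ y : List Bool, y.length ≤ ℓ + k * (2 * m + 1) → DTr t (F' y) := fun y hy =>
    (hF y hy).rs (ρ := ρ₀)
  have hff : ∀ z, rs f ρ₀ z = true ↔ ∀ j, QF m F' k b (y j) z ≠ τ j := by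
    intro z
    show f (H568R2.ov ρ₀ z) = true ↔ _
    rw [hf]
    refine forall_congr' fun j => ?_
    rw [QF_comp m F (H568R2.ov ρ₀) k b (y j) z]
  set f' : (I → Bool) → Bool := rs f ρ₀ with hf'
  have hsw := switch_alt ht h0.le h1 m F' k ℓ hF1
  rw [hhalf] at hsw
  have hw : ∀ a, 0 ≤ wq (q ^ k) a :=
    wq_nonneg (pow_nonneg h0.le k) (pow_le_one₀ h0.le (by linarith))
  have hfin : Ex (wq (q ^ k)) (fun ρ : Restr I => if ¬ DTr (t * Fintype.card X) (rs f' ρ)
      then (1 : ℝ) else 0) ≤ k * 2 ^ (ℓ + k * (2 * m + 1) + 2) * (1 / 2) ^ (t + 1) := by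
    refine (Ex_mono hw fun ρ => ?_).trans hsw
    by_cases hg : ∀ y : List Bool, y.length ≤ ℓ → ∀ b, DTr t (rs (QF m F' k b y) ρ)
    · rw [if_neg (not_not.2 hg), if_neg]
      rw [not_not]
      have h2 := (DTv.all (g := fun j => rs (QF m F' k b (y j)) ρ) fun j => hg (y j) (hy j) b).map
        (fun v : X → Bool => decide (∀ j, v j ≠ τ j))
      have h3 := dtr_of_dtv h2
      refine (congrArg (DTr (t * Fintype.card X)) ?_).mp h3
      funext z
      have h4 := hff (H568R2.ov ρ z)
      show decide (∀ j, QF m F' k b (y j) (H568R2.ov ρ z) ≠ τ j) = f' (H568R2.ov ρ z)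
      rw [Bool.eq_iff_iff, h4, decide_eq_true_iff]
    · rw [if_pos hg]
      split_ifs <;> norm_num
  have hp0 : 0 < q ^ k := by positivity
  have hp1 : q ^ k ≤ 1 := pow_le_one₀ h0.le (by linarith)
  have h2 := lv_switch hp0 hp1 f' hfin
  refine h2.trans ?_
  have h3 : ((k : ℝ) * 2 ^ (ℓ + k * (2 * m + 1) + 2) * (1 / 2) ^ (t + 1)) *
      (Fintype.card I : ℝ) ^ 2 ≤ 1 := by
    have h4 : ((k * 2 ^ (ℓ + k * (2 * m + 1) + 2) * Fintype.card I ^ 2 : ℕ) : ℝ) ≤
        ((2 ^ (t + 1) : ℕ) : ℝ) := by exact_mod_cast hβ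
    push_cast at h4
    have h6 : (1 / 2 : ℝ) ^ (t + 1) * 2 ^ (t + 1) = 1 := by
      rw [← mul_pow]; norm_num
    have h7 : (0 : ℝ) ≤ (1 / 2 : ℝ) ^ (t + 1) := by positivity
    calc _ = ((k : ℝ) * 2 ^ (ℓ + k * (2 * m + 1) + 2) * (Fintype.card I : ℝ) ^ 2) *
          (1 / 2 : ℝ) ^ (t + 1) := by ring
      _ ≤ 2 ^ (t + 1) * (1 / 2 : ℝ) ^ (t + 1) := mul_le_mul_of_nonneg_right h4 h7
      _ = 1 := by rw [mul_comm]; exact h6
  rw [div_le_iff₀ (by positivity)]
  have h8 : (24 * (t : ℝ)) ^ (2 * k) * (q ^ k) ^ 2 = 1 := by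
    rw [← pow_mul, mul_comm k 2, ← mul_pow, hq]
    rw [mul_one_div_cancel (by positivity), one_pow]
  have h9 : ((((t * Fintype.card X : ℕ) : ℝ)) ^ 2 + 1) * (24 * (t : ℝ)) ^ (2 * k) *
      (q ^ k) ^ 2 = (((t * Fintype.card X : ℕ) : ℝ)) ^ 2 + 1 := by rw [mul_assoc, h8, mul_one]
  rw [h9]
  linarith

end

section Hyb

open Pool.Agent.H9x.RT (EE mkp)

variable {K : Type*} [DecidableEq K] {W : Type*} {Z : K → Type*} [∀ c, Fintype (Z c)]
  {P Q : ∀ c, Z c → ℝ} {enc : ∀ c, Z c → W}

/-- a lower bound on the support of the contents -/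
theorem EE_ge (hP : ∀ c z, 0 ≤ P c z) (hQ : ∀ c z, 0 ≤ Q c z) (hP1 : ∀ c, ∑ z, P c z = 1)
    (hQ1 : ∀ c, ∑ z, Q c z = 1) {G : K → (Bool → W) → Prop}
    (hG : ∀ c z z', P c z ≠ 0 → Q c z' ≠ 0 → G c (mkp (enc c z) (enc c z')))
    {F : (K → Bool → W) → ℝ} {r : ℝ} : ∀ (C : List K) (D : K → Bool → W),
    (∀ D' : K → Bool → W, (∀ c ∈ C, G c (D' c)) → (∀ c ∉ C, D' c = D c) → r ≤ F D') →
      r ≤ EE P Q enc C F D
  | [], D, h => h D (fun c hc => absurd hc List.not_mem_nil) fun c _ => rfl
  | c' :: C, D, h => by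
    simp only [EE]
    have h1 : ∀ z z', P c' z * (Q c' z' * r) ≤ P c' z * (Q c' z' * EE P Q enc C F
        (Function.update D c' (mkp (enc c' z) (enc c' z')))) := by
      intro z z'
      by_cases hz : P c' z = 0
      · rw [hz, zero_mul, zero_mul]
      · by_cases hz' : Q c' z' = 0
        · rw [hz', zero_mul, zero_mul]
        · refine mul_le_mul_of_nonneg_left (mul_le_mul_of_nonneg_left ?_ (hQ c' z')) (hP c' z)
          refine EE_ge hP hQ hP1 hQ1 hG C _ fun D' h1 h2 => h D' ?_ ?_
          · intro c hc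
            by_cases hc2 : c ∈ C
            · exact h1 c hc2
            · have h3 : c = c' := by
                rcases List.mem_cons.1 hc with h3 | h3
                · exact h3
                · exact absurd h3 hc2
              subst h3
              rw [h2 c hc2, Function.update_self]
              exact hG c z z' hz hz'
          · intro c hc
            rw [h2 c fun h3 => hc (List.mem_cons_of_mem _ h3), Function.update_of_ne]
            exact fun h3 => hc (h3 ▸ List.mem_cons_self)
    have h2 : ∀ z, ∑ z', P c' z * (Q c' z' * r) = P c' z * r := by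
      intro z
      rw [← mul_sum, ← sum_mul, hQ1, one_mul]
    have h3 : ∑ z, ∑ z', P c' z * (Q c' z' * r) = r := by
      rw [sum_congr rfl fun z _ => h2 z, ← sum_mul, hP1, one_mul]
    calc r = ∑ z, ∑ z', P c' z * (Q c' z' * r) := h3.symm
      _ ≤ _ := sum_le_sum fun z _ => sum_le_sum fun z' _ => h1 z z'

end Hyb

end Pool.Agent.H9x.RU
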