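import Pool.Agent.H9x.RT.Stp

/-!
# The oracle with blocks for polynomial space and free strings
-/

set_option autoImplicit false

namespace Pool.Agent.H9x.RU

open Pool.Agent.NPC Pool.Agent.H622R2 Pool.Agent.H620R2.Gauge Pool.Agent.H622R2.Exp
  Pool.Agent.TH678.ETH Pool.Agent.TH678.SETH Pool.Agent.TH678.RS

open Pool.Agent.H9x.V1 (Ac ac_congr poly_rep poly_cS)

open Pool.Agent.H9x.RT (ll lev HZ HZ_iff enc enc_cls FoC Yes No not_yes mkp cpy)

/-- the data: the contents of the blocks (for both truth values) and the free bits -/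
structure Dt : Type where
  bl : ℕ × List Bool → Bool → List Bool → Bool
  fr : List Bool → Bool

/-- indices of codes -/
structure Jx (S : ℕ → Polynomial ℕ) : Type where
  e : ℕ
  x : List Bool
  w : List Bool
  hw : w.length = ll ((S e).eval x.length) + 1

variable {S : ℕ → Polynomial ℕ} {g : ℕ → SAlg × Polynomial ℕ}

/-- addresses of codes -/
def cJ (p : Jx S) : List Bool := false :: true :: cS p.e ((S p.e).eval p.x.length) (p.x ++ p.w)

theorem cJ_inj : Function.Injective (cJ : Jx S → List Bool) := by
  rintro ⟨e, x, w, hw⟩ ⟨e', x', w', hw'⟩ h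
  simp only [cJ, List.cons.injEq, true_and] at h
  obtain ⟨h1, h2, h3⟩ := cS_inj h
  subst h1
  have h4 : w.length = w'.length := by rw [hw, hw', h2]
  obtain ⟨h5, h6⟩ := List.append_inj' h3 h4
  subst h5
  subst h6
  rfl

open Classical in
/-- the base oracle -/
noncomputable def base (D : Dt) : Oracle
  | true :: u => D.fr u
  | false :: false :: v => decide (HZ v)
  | _ => false

/-- the bounds -/
structure Kr (g : ℕ → SAlg × Polynomial ℕ) (S : ℕ → Polynomial ℕ) : Prop where
  big : ∀ e n, n + e + 1 ≤ (S e).eval n
  loc : ∀ e (x a : List Bool), a.length ≤ (g e).2.eval x.length →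
    ((g e).1.act (pairBits x a)).length ≤ (S e).eval x.length

theorem exists_kr (g : ℕ → SAlg × Polynomial ℕ) : ∃ S : ℕ → Polynomial ℕ, Kr g S := by
  choose bb hbb using fun e : ℕ => CC.act_length (g e).1 (g e).2
  set S : ℕ → Polynomial ℕ := fun e => bb e + Polynomial.X + Polynomial.C (e + 1) with hS
  have hSe : ∀ e n, (S e).eval n = (bb e).eval n + n + (e + 1) := by
    intro e n
    rw [hS]
    simp
  refine ⟨S, fun e n => by rw [hSe]; omega, fun e x a ha => ?_⟩
  have h3 := hbb e x a ha
  rw [hSe]
  omega

variable (g) in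
open Classical in
/-- the content of a code -/
def cont (D : Dt) (p : Jx S) (A : Oracle) : Prop :=
  D.bl (p.e, p.x) (decide (Ac g S p.e p.x A)) p.w = true

theorem lt_cJ (p : Jx S) : (S p.e).eval p.x.length < (cJ p).length := by
  unfold cJ
  rw [List.length_cons, List.length_cons, length_cS]
  omega

theorem cont_congr (D : Dt) (p : Jx S) {A A' : Oracle}
    (hA : ∀ z : List Bool, z.length < (cJ p).length → A z = A' z) :
    cont g D p A ↔ cont g D p A' := by
  have h1 : Ac g S p.e p.x A ↔ Ac g S p.e p.x A' :=
    ac_congr fun z hz => hA z (lt_of_le_of_lt hz (lt_cJ p))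
  unfold cont
  have h2 : @decide (Ac g S p.e p.x A) (Classical.propDecidable _) =
      @decide (Ac g S p.e p.x A') (Classical.propDecidable _) := by
    rw [decide_eq_decide]
    exact h1
  rw [h2]

variable (g S) in
/-- the oracle -/
noncomputable def orc (D : Dt) : Oracle :=
  C1.Phi (cJ : Jx S → List Bool) (cont g D) (base D)

theorem orc_on (D : Dt) (p : Jx S) :
    orc S g D (cJ p) = D.bl (p.e, p.x) (@decide (Ac g S p.e p.x (orc S g D))
      (Classical.propDecidable _)) p.w := by
  have h := C1.Phi_code (cJ : Jx S → List Bool) cJ_inj (cont g D) (base D)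
    (fun p _ _ hA => cont_congr D p hA) p
  rw [Bool.eq_iff_iff]
  exact h

theorem orc_off (D : Dt) {y : List Bool} (hy : ∀ p : Jx S, y ≠ cJ p) :
    orc S g D y = base D y := C1.Phi_not _ _ _ _ hy

theorem orc_free (D : Dt) (u : List Bool) : orc S g D (true :: u) = D.fr u := by
  rw [orc_off D (fun p hp => by simp [cJ] at hp)]
  rfl

/-- **Locality.** -/
theorem orc_loc {n : ℕ} {D D' : Dt} (hb : ∀ c, lev S c < n → D.bl c = D'.bl c)
    (hf : ∀ u : List Bool, u.length < n → D.fr u = D'.fr u) :
    ∀ (m : ℕ) (q : List Bool), q.length = m → m ≤ n → orc S g D q = orc S g D' q := by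
  intro m
  induction m using Nat.strong_induction_on with
  | _ m ih =>
    intro q hq hqn
    by_cases hp : ∃ p : Jx S, q = cJ p
    · obtain ⟨p, rfl⟩ := hp
      have hA : ∀ z : List Bool, z.length ≤ (S p.e).eval p.x.length →
          orc S g D z = orc S g D' z :=
        fun z hz => ih z.length (by have := lt_cJ p; omega) z rfl (by have := lt_cJ p; omega)
      have h1 : @decide (Ac g S p.e p.x (orc S g D)) (Classical.propDecidable _) =
          @decide (Ac g S p.e p.x (orc S g D')) (Classical.propDecidable _) := by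
        rw [decide_eq_decide]
        exact ac_congr hA
      have h2 := lt_cJ p
      rw [orc_on, orc_on, h1, hb (p.e, p.x) (by show (S p.e).eval p.x.length < n; omega)]
    · push Not at hp
      rw [orc_off D hp, orc_off D' hp]
      rcases q with _ | ⟨c₁, u⟩
      · rfl
      · cases c₁
        · rcases u with _ | ⟨c₂, u⟩
          · rfl
          · cases c₂ <;> rfl
        · show D.fr u = D'.fr u
          rw [List.length_cons] at hq
          exact hf u (by omega)

variable {I : Type*}

/-- a family of data in which one block at the level `s` or the free bits vary, and no truth value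
of a block at the higher levels matters -/
structure Fam (S : ℕ → Polynomial ℕ) (s T : ℕ) (F : (I → Bool) → Dt) : Prop where
  low : ∀ c, lev S c < s → ∀ z z', (F z).bl c = (F z').bl c
  lowf : ∀ u : List Bool, u.length < s → ∀ z z', (F z).fr u = (F z').fr u
  blk : ∀ c, s ≤ lev S c → lev S c ≤ T →
    ((∀ z z', (F z).bl c = (F z').bl c) ∧ (lev S c = s ∨ ∀ z, (F z).bl c true = (F z).bl c false))
      ∨ ∀ w, (∃ v, ∀ z t, (F z).bl c t w = v) ∨ ∃ i, ∀ z t, (F z).bl c t w = z i
  fr : ∀ u, (∃ v, ∀ z, (F z).fr u = v) ∨ ∃ i, ∀ z, (F z).fr u = z i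

/-- every question is a constant or a coordinate -/
def Smp (T : ℕ) (G : (I → Bool) → Oracle) : Prop :=
  ∀ q : List Bool, q.length ≤ T → (∃ v, ∀ z, G z q = v) ∨ ∃ i, ∀ z, G z q = z i

theorem Fam.smp {s T : ℕ} {F : (I → Bool) → Dt} (hF : Fam S s T F) :
    Smp T (fun z => orc S g (F z)) := by
  have hlow : ∀ q : List Bool, q.length ≤ s → ∀ z z', orc S g (F z) q = orc S g (F z') q :=
    fun q hq z z' => orc_loc (fun c hc' => hF.low c hc' z z')
      (fun s' hs' => hF.lowf s' hs' z z') _ q rfl hq
  set z₀ : I → Bool := fun _ => false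
  intro q hqT
  by_cases hp : ∃ p : Jx S, q = cJ p
  · obtain ⟨p, rfl⟩ := hp
    have hl := lt_cJ p
    have hlT : lev S (p.e, p.x) ≤ T := by show (S p.e).eval p.x.length ≤ T; omega
    have key2 : lev S (p.e, p.x) ≤ s → (∀ z z', (F z).bl (p.e, p.x) = (F z').bl (p.e, p.x)) →
        ∃ c, ∀ z, (fun z => orc S g (F z)) z (cJ p) = c := by
      intro hls hb
      refine ⟨orc S g (F z₀) (cJ p), fun z => ?_⟩
      show orc S g (F z) (cJ p) = orc S g (F z₀) (cJ p)
      rw [orc_on, orc_on, hb z z₀]
      have h2 : @decide (Ac g S p.e p.x (orc S g (F z))) (Classical.propDecidable _) =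
          @decide (Ac g S p.e p.x (orc S g (F z₀))) (Classical.propDecidable _) := by
        rw [decide_eq_decide]
        exact ac_congr fun q hq => hlow q
          (by have : (S p.e).eval p.x.length ≤ s := hls; omega) z z₀
      rw [h2]
    by_cases hls : lev S (p.e, p.x) < s
    · exact Or.inl (key2 hls.le fun z z' => hF.low _ hls z z')
    · rcases hF.blk (p.e, p.x) (not_lt.1 hls) hlT with ⟨h1, h2⟩ | h1
      · left
        rcases h2 with h2 | h2
        · exact key2 h2.le h1
        · refine ⟨(F z₀).bl (p.e, p.x) true p.w, fun z => ?_⟩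
          show orc S g (F z) (cJ p) = _
          rw [orc_on, h1 z z₀]
          cases @decide (Ac g S p.e p.x (orc S g (F z))) (Classical.propDecidable _)
          · rw [← h2 z₀]
          · rfl
      · rcases h1 p.w with ⟨v, hv⟩ | ⟨i, hi⟩
        · exact Or.inl ⟨v, fun z => by
            show orc S g (F z) (cJ p) = _
            rw [orc_on, hv]⟩
        · exact Or.inr ⟨i, fun z => by
            show orc S g (F z) (cJ p) = _
            rw [orc_on, hi]⟩
  · push Not at hp
    have hoff : ∀ z, (fun z => orc S g (F z)) z q = base (F z) q := fun z => orc_off _ hp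
    rcases q with _ | ⟨c₁, u⟩
    · exact Or.inl ⟨false, fun z => by rw [hoff]; rfl⟩
    · cases c₁
      · rcases u with _ | ⟨c₂, u⟩
        · exact Or.inl ⟨false, fun z => by rw [hoff]; rfl⟩
        · cases c₂
          · exact Or.inl ⟨base (F z₀) (false :: false :: u), fun z => by rw [hoff]; rfl⟩
          · exact Or.inl ⟨false, fun z => by rw [hoff]; rfl⟩
      · have hfr : ∀ z, (fun z => orc S g (F z)) z (true :: u) = (F z).fr u := fun z => orc_free _ _
        rcases hF.fr u with ⟨v, hv⟩ | ⟨i, hi⟩
        · exact Or.inl ⟨v, fun z => by rw [hfr, hv]⟩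
        · exact Or.inr ⟨i, fun z => by rw [hfr, hi]⟩

/-- **Only one of the two contents matters.** -/
theorem orc_sel (B : ℕ × List Bool → Bool → List Bool → Bool)
    (fr : List Bool → Bool) (c : ℕ × List Bool) :
    ∃ t : Bool, ∀ u v : List Bool → Bool,
      orc S g ⟨Function.update B c (mkp u v), fr⟩ =
        orc S g ⟨Function.update B c (mkp (mkp u v t) (mkp u v t)), fr⟩ := by
  obtain ⟨e, x⟩ := c
  refine ⟨@decide (Ac g S e x (orc S g ⟨B, fr⟩)) (Classical.propDecidable _), fun u v => ?_⟩
  set t := @decide (Ac g S e x (orc S g ⟨B, fr⟩)) (Classical.propDecidable _) with ht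
  have htv : ∀ v' : Bool → List Bool → Bool, @decide (Ac g S e x (orc S g
      ⟨Function.update B (e, x) v', fr⟩)) (Classical.propDecidable _) = t := by
    intro v'
    rw [ht, decide_eq_decide]
    refine ac_congr fun q hq => orc_loc (n := (S e).eval x.length)
      (D := ⟨Function.update B (e, x) v', fr⟩) (D' := ⟨B, fr⟩) (fun c hc => ?_)
      (fun s _ => rfl) _ q rfl hq
    show Function.update B (e, x) v' c = B c
    rw [Function.update_of_ne]
    rintro rfl
    exact absurd hc (lt_irrefl _)
  funext q
  generalize hm : q.length = m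
  induction m using Nat.strong_induction_on generalizing q with
  | _ m ih =>
    by_cases hp : ∃ p : Jx S, q = cJ p
    · obtain ⟨p, rfl⟩ := hp
      have hA : ∀ z : List Bool, z.length < (cJ p).length →
          orc S g ⟨Function.update B (e, x) (mkp u v), fr⟩ z =
          orc S g ⟨Function.update B (e, x) (mkp (mkp u v t) (mkp u v t)), fr⟩ z :=
        fun z hz => ih z.length (by omega) z rfl
      rw [orc_on, orc_on]
      obtain ⟨e', x', w, hw⟩ := p
      show Function.update B (e, x) (mkp u v) (e', x') (@decide (Ac g S e' x' _)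
          (Classical.propDecidable _)) w = Function.update B (e, x) (mkp (mkp u v t) (mkp u v t))
          (e', x') (@decide (Ac g S e' x' _) (Classical.propDecidable _)) w
      by_cases hc : (e', x') = (e, x)
      · obtain ⟨rfl, rfl⟩ := Prod.mk.inj hc
        rw [Function.update_self, Function.update_self, htv, htv]
        have : mkp (mkp u v t) (mkp u v t) t = mkp u v t := by
          unfold mkp
          split_ifs <;> rfl
        rw [this]
      · rw [Function.update_of_ne hc, Function.update_of_ne hc]
        have h2 : ∀ A A' : Oracle, (∀ z : List Bool, z.length ≤ (S e').eval x'.length →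
            A z = A' z) → @decide (Ac g S e' x' A) (Classical.propDecidable _) =
            @decide (Ac g S e' x' A') (Classical.propDecidable _) := by
          intro A A' hAA
          rw [decide_eq_decide]
          exact ac_congr hAA
        rw [h2 _ _ fun z hz => hA z (lt_of_le_of_lt hz (lt_cJ ⟨e', x', w, hw⟩))]
    · push Not at hp
      rw [orc_off _ hp, orc_off _ hp]
      rcases q with _ | ⟨c₁, u'⟩
      · rfl
      · cases c₁
        · rcases u' with _ | ⟨c₂, u'⟩
          · rfl
          · cases c₂ <;> rfl
        · rfl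

end Pool.Agent.H9x.RU
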