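import Pool.Agent.H9x.RU.Mach

/-!
# One step of the construction
-/

set_option autoImplicit false

namespace Pool.Agent.H9x.RU

open Finset H568R2 Pool.Agent.H676 Pool.Agent.H620R2.Gauge Pool.Agent.NPC Pool.Agent.H591R3.PHG
  Pool.Agent.H622R2 Pool.Agent.H622R2.Exp

open Pool.Agent.H9x.RT (ll lev enc_cls FoC FoC_enc Yes No mkp EE EC EC_le hyb exists_dist
  exists_list block_diff del sum_del_le lv sqrt2_pos)


/-- the blocks are good -/
def Good (S : ℕ → Polynomial ℕ) (B : ℕ × List Bool → Bool → List Bool → Bool) : Prop :=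
  ∀ c, Yes (lev S c) (B c true) ∧ No (lev S c) (B c false)

/-- the free part of an oracle -/
def fo (A : Oracle) : Oracle := fun u => A (true :: u)

theorem fo_orc {S : ℕ → Polynomial ℕ} {g : ℕ → SAlg × Polynomial ℕ} (D : Dt) :
    fo (orc S g D) = D.fr := funext fun u => orc_free D u

/-- the strings of the leaves -/
def la {X : Type} (xs : X → List Bool) (as : List ℕ) (w : ℕ) (g : Idx X (w :: pw as)) :
    List Bool := addr xs as g.1 ++ List.replicate g.2.val true

theorem le_la {X : Type} {xs : X → List Bool} {ℓ : ℕ} (hl : ∀ j, (xs j).length = ℓ) (as : List ℕ)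
    (w : ℕ) (g : Idx X (w :: pw as)) : ℓ ≤ (la xs as w g).length := by
  unfold la
  rw [List.length_append, LangTrAux.length_addr xs ℓ hl]
  omega

/-- the machine with padding `P` is right on all the inputs -/
def Rt (k P : ℕ) (M : Alg) {X : Type} (xs : X → List Bool) (A : Oracle) : Prop :=
  ∀ j, xs j ∈ lang k (fo A) ↔ Quant P (fun y => (M.out A y).getD []) k true
    (pairBits (List.replicate P true) (xs j))

theorem rt_iff {X I : Type} [Fintype I] [DecidableEq I] {k P T Λ w : ℕ} {M : Alg} {as : List ℕ}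
    (hk : as.length = k + 1) (zz : X → List Bool)
    (hΛ : ∀ j, (pairBits (List.replicate P true) (enc as w (zz j))).length + k * (2 * P + 1) ≤ Λ)
    (hcut : ∀ (A : Oracle) (y : List Bool), y.length ≤ Λ → M.out (CC.cut T A) y = M.out A y)
    (G : (I → Bool) → Oracle) (z : I → Bool) :
    Rt k P M (fun j => enc as w (zz j)) (G z) ↔
      ∀ j, QF P (lf M T G) k true (pairBits (List.replicate P true) (enc as w (zz j))) z ≠
        Tr (w :: pw as) (leaves (fun j => enc as w (zz j)) as w (fo (G z))) j := by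
  unfold Rt
  refine forall_congr' fun j => ?_
  rw [mem_lang_iff (fo (G z)) k as hk w zz j]
  have h1 := quant_QF (m := P) (F := lf M T G) (z := z)
    (V := fun y => (M.out (G z) y).getD []) Λ (fun y hy => ?_) k true _ (hΛ j)
  · rw [h1]
    cases Tr (w :: pw as) (leaves (fun j => enc as w (zz j)) as w (fo (G z))) j <;>
      cases QF P (lf M T G) k true (pairBits (List.replicate P true) (enc as w (zz j))) z <;> simp
  · show (M.out (G z) y).getD [] = [true] ↔ decide (M.out (CC.cut T (G z)) y = some [true]) = true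
    rw [decide_eq_true_iff, hcut _ _ hy]
    cases M.out (G z) y <;> simp

variable {S : ℕ → Polynomial ℕ} {g : ℕ → SAlg × Polynomial ℕ}

theorem blk_lv {X : Type} [Fintype X] [DecidableEq X] {s T k P Λ ℓ t w : ℕ} {M : Alg}
    {F : ((Fin (ll s) → Bool) ⊕ (Fin (ll s) → Bool) → Bool) → Dt} (hF : Fam S s T F)
    (hfr : ∀ z z', (F z).fr = (F z').fr) {as : List ℕ} (hk : as.length = k + 1)
    (zz : X → List Bool) (hℓ : ∀ j, (pairBits (List.replicate P true) (enc as w (zz j))).length ≤ ℓ)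
    (hΛ : ℓ + k * (2 * P + 1) ≤ Λ)
    (hcut : ∀ (A : Oracle) (y : List Bool), y.length ≤ Λ → M.out (CC.cut T A) y = M.out A y)
    (ht : 1 ≤ t) (hp : ∀ y : List Bool, y.length ≤ Λ → M.p.eval y.length ≤ t)
    (hβ : k * 2 ^ (ℓ + k * (2 * P + 1) + 2) * (2 ^ (ll s + 1)) ^ 2 ≤ 2 ^ (t + 1))
    {f : ((Fin (ll s) → Bool) ⊕ (Fin (ll s) → Bool) → Bool) → Bool}
    (hf : ∀ z, f z = true ↔ Rt k P M (fun j => enc as w (zz j)) (orc S g (F z)))
    (ρ : Restr ((Fin (ll s) → Bool) ⊕ (Fin (ll s) → Bool))) :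
    lv 2 (br (rs f ρ)) 0 ≤
      ((((t * Fintype.card X : ℕ) : ℝ)) ^ 2 + 1) * (24 * (t : ℝ)) ^ (2 * k) := by
  have hcard : Fintype.card ((Fin (ll s) → Bool) ⊕ (Fin (ll s) → Bool)) = 2 ^ (ll s + 1) := by
    rw [Fintype.card_sum]
    simp only [Fintype.card_fun, Fintype.card_bool, Fintype.card_fin]
    rw [pow_succ]
    ring
  refine lv_all ht P k ℓ (lf M T fun z => orc S g (F z))
    (fun y hy => dtr_lf hF.smp M y (hp y (by omega)))
    (fun j => pairBits (List.replicate P true) (enc as w (zz j))) hℓ true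
    (fun j => Tr (w :: pw as) (leaves (fun j => enc as w (zz j)) as w (F fun _ => false).fr) j)
    (by rw [hcard]; exact hβ) (fun z => ?_) ρ
  rw [hf z, rt_iff (T := T) (Λ := Λ) hk zz (fun j => by have := hℓ j; omega) hcut
    (fun z => orc S g (F z)) z]
  refine forall_congr' fun j => ?_
  rw [fo_orc, hfr z fun _ => false]

/-- the sizes are good -/
def SZ (n u k : ℕ) (as : List ℕ) : Prop :=
  as.length = k + 1 ∧ (∀ a ∈ as, a ≤ 64 * n) ∧
    Ex (nxt (1 / 2) (1 / 2 ^ (4 * n)) 0 (8 * n) (8 * n) law0)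
      (Wt (X := Fin (2 ^ (u + 11))) (1 / 2 ^ (4 * n)) (1 / 2 ^ (2 * n)) (8 * n * 2 ^ (4 * n))
        (1 / 256) (2 ^ (3 * u + 11)) (2 ^ (u + 9)) (pw as)) ≤ (9 / 10) ^ (2 ^ (u + 11))

theorem exists_SZ {n u : ℕ} (hn : 5 ≤ n) (hu : 8 * u ≤ n) (k : ℕ) : ∃ as, SZ n u k as := by
  obtain ⟨as, h1, h2, h3⟩ := exists_sizes hn k _ (inv_start hn)
  have h4 := h3 (Fin (2 ^ (u + 11))) (2 ^ (3 * u + 11)) (2 ^ (u + 9)) (by
      have e : (16 : ℕ) = 2 ^ 4 := by norm_num
      rw [e, ← pow_add]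
      exact Nat.pow_le_pow_right (by norm_num) (by omega)) (by
      rw [Fintype.card_fin]
      have e : (4 : ℕ) = 2 ^ 2 := by norm_num
      rw [e, ← pow_add]
      exact Nat.pow_le_pow_right (by norm_num) (by omega))
  rw [Fintype.card_fin] at h4
  exact ⟨as, h1, h2, h4⟩

open Classical in
/-- the free strings -/
theorem free_le {n u k P T Λ ℓ : ℕ} {M : Alg} {as : List ℕ} (hn : 5 ≤ n) (hu : 8 * u ≤ n)
    (hsz : SZ n u k as)
    {F : (Idx (Fin (2 ^ (u + 11))) (8 * n :: pw as) → Bool) → Dt} (hF : Fam S n T F)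
    (hfr : ∀ y g, (F y).fr (la (fun j : Fin (2 ^ (u + 11)) => enc as (8 * n)
      (bitsOf (u + 11) j)) as (8 * n) g) = y g)
    (hℓ : ∀ j : Fin (2 ^ (u + 11)), (pairBits (List.replicate P true) (enc as (8 * n)
      (bitsOf (u + 11) j))).length ≤ ℓ) (hΛ : ℓ + k * (2 * P + 1) ≤ Λ)
    (hcut : ∀ (A : Oracle) (y : List Bool), y.length ≤ Λ → M.out (CC.cut T A) y = M.out A y)
    (hp : ∀ y : List Bool, y.length ≤ Λ → M.p.eval y.length ≤ 2 ^ (2 * u)) :
    ∑ y : Idx (Fin (2 ^ (u + 11))) (8 * n :: pw as) → Bool, (∏ i, ber (1 / 2) (y i)) *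
      (if Rt k P M (fun j : Fin (2 ^ (u + 11)) => enc as (8 * n) (bitsOf (u + 11) j))
        (orc S g (F y)) then (1 : ℝ) else 0) ≤
      k * (2 ^ (ℓ + k * (2 * P + 1) + 2) * (1 / 2) ^ (2 ^ (2 * u) + 1)) +
        3 * (1 / 2) ^ (2 ^ u) := by
  obtain ⟨h1, h2, h3⟩ := hsz
  have hlen : (pw as).length = k + 1 := by
    rw [pw, List.length_map]; exact h1
  have hml := main_leaf (X := Fin (2 ^ (u + 11))) (n := n) (u := u) (D := 2 ^ (3 * u + 11))
    (g := 2 ^ (u + 9)) hn hu (by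
      rw [Fintype.card_fin, ← pow_add]
      exact Nat.pow_le_pow_right (by norm_num) (by omega)) k (pw as) hlen P ℓ
    (lf M T fun y => orc S g (F y)) (fun y hy => dtr_lf hF.smp M y (hp y (by omega)))
    (fun j : Fin (2 ^ (u + 11)) => pairBits (List.replicate P true) (enc as (8 * n)
      (bitsOf (u + 11) j))) hℓ true
  have h6 := final_numbers hn hu
  refine le_trans (le_of_eq ?_) (hml.trans (by linarith))
  unfold Ms Ex
  refine sum_congr rfl fun y _ => ?_
  congr 1
  have h7 : Rt k P M (fun j : Fin (2 ^ (u + 11)) => enc as (8 * n) (bitsOf (u + 11) j))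
      (orc S g (F y)) ↔ ∀ j : Fin (2 ^ (u + 11)), QF P (lf M T fun y => orc S g (F y)) k true
        (pairBits (List.replicate P true) (enc as (8 * n) (bitsOf (u + 11) j))) y ≠
        Tr (8 * n :: pw as) (leaves (fun j : Fin (2 ^ (u + 11)) => enc as (8 * n)
          (bitsOf (u + 11) j)) as (8 * n) (fo (orc S g (F y)))) j :=
    rt_iff (T := T) (Λ := Λ) (M := M) h1 (fun j : Fin (2 ^ (u + 11)) => bitsOf (u + 11) j)
      (fun j => (Nat.add_le_add_right (hℓ j) _).trans hΛ) hcut (fun y => orc S g (F y)) y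
  have h8 : leaves (fun j : Fin (2 ^ (u + 11)) => enc as (8 * n) (bitsOf (u + 11) j)) as (8 * n)
      (fo (orc S g (F y))) = val (fun _ => none) y := by
    funext g'
    rw [fo_orc]
    exact hfr y g'
  rw [h8] at h7
  by_cases h9 : Rt k P M (fun j : Fin (2 ^ (u + 11)) => enc as (8 * n) (bitsOf (u + 11) j))
        (orc S g (F y))
  · rw [if_pos h9]
    exact (if_pos (h7.1 h9)).symm
  · rw [if_neg h9]
    exact (if_neg fun h => h9 (h7.2 h)).symm

end Pool.Agent.H9x.RU
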